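import Pool.Agent.Y766.R9.Stm2
import Pool.Agent.Y766.R8.PC

/-!
Many members of a one-separated progression are not ordinates.
-/

set_option autoImplicit false

namespace Pool.Agent.Y766.R9

open Finset
open Pool.Agent.Y766.R8 (many_large)

theorem nvg (hf : S_FMZ) : S_NVG := by
  classical
  intro k δ ε hδ hε
  obtain ⟨κ, hκ⟩ : ∃ κ : ℝ, κ = ε / 10 := ⟨_, rfl⟩
  have hκ0 : 0 < κ := by rw [hκ]; positivity
  obtain ⟨C1, hC1, h1⟩ := hf k δ κ hδ hκ0
  obtain ⟨C2, h2⟩ := gap_set k hκ0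
  refine ⟨C1 + 4 ^ (1 / κ) + (|C2| + 1) ^ (1 / κ), ?_, ?_⟩
  · have : (0 : ℝ) ≤ 4 ^ (1 / κ) := by positivity
    have : (0 : ℝ) ≤ (|C2| + 1) ^ (1 / κ) := by positivity
    linarith
  intro T F hT hF hFT hsep hcard
  have c1 : (0 : ℝ) ≤ 4 ^ (1 / κ) := by positivity
  have c2 : (0 : ℝ) ≤ (|C2| + 1) ^ (1 / κ) := by positivity
  have hT1 : (1 : ℝ) ≤ T := by linarith
  have hT0 : (0 : ℝ) < T := by linarith
  have hroot : ∀ x : ℝ, 0 ≤ x → x ^ (1 / κ) ≤ T → x ≤ T ^ κ := by
    intro x hx h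
    calc x = (x ^ (1 / κ)) ^ κ := by
          rw [← Real.rpow_mul hx, one_div_mul_cancel hκ0.ne', Real.rpow_one]
      _ ≤ T ^ κ := Real.rpow_le_rpow (by positivity) h hκ0.le
  have h4T : (4 : ℝ) ≤ T ^ κ := hroot 4 (by norm_num) (by linarith)
  have hC2T : |C2| + 1 ≤ T ^ κ := hroot _ (by positivity) (by linarith)
  have hsepT : ∀ t ∈ F, ∀ u ∈ F, t ≠ u → 1 ≤ |t - u| ∧ |t - u| ≤ T := by
    intro t ht u hu hne
    refine ⟨hsep t ht u hu hne, ?_⟩
    have ht1 := hFT t ht
    have hu1 := hFT u hu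
    rw [abs_le]
    constructor <;> linarith [ht1.1, ht1.2, hu1.1, hu1.2]
  have hF1 : (1 : ℝ) ≤ F.card := (Real.one_le_rpow hT1 (by positivity)).trans hcard
  have hF0 : (0 : ℝ) < F.card := by linarith
  have m1 := h1 T T F (by linarith) hF hFT hsepT
    (by rw [← Real.rpow_add hT0]; exact hcard)
    (by
      refine le_trans ?_ hcard
      exact Real.rpow_le_rpow_of_exponent_le hT1 (by linarith))
  have m2 := h2 T hT1 T F hF hFT hsepT
    (by
      refine le_trans ?_ hcard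
      exact Real.rpow_le_rpow_of_exponent_le hT1 (by linarith))
    (by
      refine le_trans ?_ hcard
      exact Real.rpow_le_rpow_of_exponent_le hT1 (by linarith))
  set f : ℝ → ℝ := fun t => ‖riemannZeta (1 / 2 + t * Complex.I)‖ with hfd
  have key := many_large (ι := {t // t ∈ F}) (fun t => f t.1) (fun t => norm_nonneg _)
    (a := F.card * T ^ (-κ) / 2) (b := T ^ (-ε) * F.card) (V := T ^ (-ε))
    (S := T ^ (2 * κ) * F.card) (by positivity) (by positivity) (by positivity) (by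
      rw [Fintype.card_coe]
      calc (F.card : ℝ) * T ^ (-ε) ≤ F.card * (T ^ (-κ) / 2) := by
            refine mul_le_mul_of_nonneg_left ?_ hF0.le
            have k1 : 2 * T ^ (-ε) ≤ T ^ (-κ) := by
              calc 2 * T ^ (-ε) ≤ T ^ κ * T ^ (-ε) := by gcongr; linarith
                _ = T ^ (κ + -ε) := (Real.rpow_add hT0 _ _).symm
                _ ≤ T ^ (-κ) := Real.rpow_le_rpow_of_exponent_le hT1 (by rw [hκ]; linarith)
            linarith
        _ = _ := by ring) (by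
      rw [sum_coe_sort F (fun t => f t)]
      linarith) (by
      rw [sum_coe_sort F (fun t => f t ^ 2)]
      refine m2.trans ?_
      calc C2 * T ^ κ * F.card ≤ (|C2| + 1) * T ^ κ * F.card := by
            gcongr
            linarith [le_abs_self C2]
        _ ≤ T ^ κ * T ^ κ * F.card := by gcongr
        _ = _ := by
            rw [← Real.rpow_add hT0]
            congr 2
            ring) (by
      have k1 : T ^ (-ε) * T ^ (2 * κ) ≤ (T ^ (-κ) / 2) ^ 2 := by
        have k2 : 4 * (T ^ (-ε) * T ^ (2 * κ)) ≤ (T ^ (-κ)) ^ 2 := by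
          calc 4 * (T ^ (-ε) * T ^ (2 * κ)) ≤ T ^ κ * (T ^ (-ε) * T ^ (2 * κ)) := by gcongr
            _ = T ^ (κ + (-ε + 2 * κ)) := by rw [← Real.rpow_add hT0, ← Real.rpow_add hT0]
            _ ≤ T ^ (-κ * 2) := Real.rpow_le_rpow_of_exponent_le hT1 (by rw [hκ]; linarith)
            _ = (T ^ (-κ)) ^ 2 := by rw [Real.rpow_mul hT0.le]; norm_num
        have k3 : (T ^ (-κ) / 2) ^ 2 = (T ^ (-κ)) ^ 2 / 4 := by ring
        rw [k3]; linarith
      calc T ^ (-ε) * F.card * (T ^ (2 * κ) * F.card)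
          = (T ^ (-ε) * T ^ (2 * κ)) * (F.card : ℝ) ^ 2 := by ring
        _ ≤ (T ^ (-κ) / 2) ^ 2 * (F.card : ℝ) ^ 2 := by gcongr
        _ = _ := by ring)
  refine key.trans ?_
  have hle : Nat.card {x : {t // t ∈ F} // T ^ (-ε) ≤ f x.1} ≤
      (F.filter (fun t : ℝ => riemannZeta (1 / 2 + t * Complex.I) ≠ 0)).card := by
    rw [← Fintype.card_coe, ← Nat.card_eq_fintype_card]
    refine Nat.card_le_card_of_injective (fun x => ⟨x.1.1, Finset.mem_filter.2 ⟨x.1.2, ?_⟩⟩) ?_
    · intro h0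
      have h1 := x.2
      simp only [hfd, h0, norm_zero] at h1
      have h2 : 0 < T ^ (-ε) := by positivity
      linarith
    · intro x y hxy
      simp only [Subtype.mk.injEq] at hxy
      exact Subtype.ext (Subtype.ext hxy)
  exact_mod_cast hle

end Pool.Agent.Y766.R9
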