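import Pool.Agent.Y766.G8

/-!
Statements for project R9: non-vanishing of zeta on generalised arithmetic progressions of heights.
-/

set_option autoImplicit false

namespace Pool.Agent.Y766.R9

open Finset

/-- ZAP: the approximation of `ζ(1/2 + it)` by a partial sum of length about `t` -/
def S_ZAP : Prop := ∃ C : ℝ, 0 < C ∧ ∀ (t : ℝ) (N : ℕ), 1 ≤ t → 2 * t ≤ N → (N : ℝ) ≤ 5 * t →
  ‖riemannZeta (1 / 2 + t * Complex.I) -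
    ∑ n ∈ Icc 1 N, (n : ℂ) ^ (-(1 / 2 + t * Complex.I))‖ ≤ C * t ^ (-(1 / 2) : ℝ)

/-- the nonzero small combinations of the steps are at least one and at most `D` -/
def SepZ {k : ℕ} (Δ : Fin k → ℝ) (L : Fin k → ℕ) (D : ℝ) : Prop :=
  ∀ j : Fin k → ℤ, (∀ i, |j i| < L i) → j ≠ 0 →
    1 ≤ |∑ i, (j i : ℝ) * Δ i| ∧ |∑ i, (j i : ℝ) * Δ i| ≤ D

/-- `log n` is in the Bohr set with widths `2^(b i) / L i` -/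
def InB {k : ℕ} (Δ : Fin k → ℝ) (L b : Fin k → ℕ) (n : ℕ) : Prop :=
  ∀ i, ∃ z : ℤ, |Δ i * Real.log n - 2 * Real.pi * z| ≤ 2 * Real.pi * (2 : ℝ) ^ (b i) / L i

open Classical in
/-- MEAS: the number of integers in a dyadic interval whose logarithm is in a Bohr set -/
def S_MEAS : Prop := ∀ k : ℕ, ∃ C : ℝ, 0 < C ∧ ∀ (D : ℝ) (Δ : Fin k → ℝ) (L b : Fin k → ℕ),
  1 ≤ D → (∀ i, 1 ≤ L i) → SepZ Δ L D → ∀ X : ℕ, 1 ≤ X →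
    (((Ioc X (2 * X)).filter (fun n => InB Δ L b n)).card : ℝ) ≤
      C * (2 : ℝ) ^ (∑ i, b i) * (1 + Real.log D) * (X + D) / ∏ i, (L i : ℝ)

/-- the product of the Fejér kernels at `log n` -/
noncomputable def WF {k : ℕ} (Δ : Fin k → ℝ) (L : Fin k → ℕ) (n : ℕ) : ℝ :=
  ∏ i, ‖∑ j ∈ range (L i), Complex.exp (((j * (Δ i * Real.log n) : ℝ) : ℂ) * Complex.I)‖ ^ 2 /
    (L i : ℝ)

/-- BOH: the kernels are small on average over the integers of a dyadic interval -/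
def S_BOH : Prop := ∀ (k : ℕ) (δ κ : ℝ), 0 < δ → 0 < κ → ∃ η C : ℝ, 0 < η ∧ 0 < C ∧
  ∀ (T D : ℝ) (Δ : Fin k → ℝ) (L : Fin k → ℕ), 1 ≤ D → D ≤ T → (∀ i, 1 ≤ L i) → SepZ Δ L D →
    T ^ (1 / 2 + δ) ≤ ∏ i, (L i : ℝ) → D ^ (2 / 3 : ℝ) * T ^ δ ≤ ∏ i, (L i : ℝ) →
    ∀ K : ℕ, T ^ κ ≤ K → (K : ℝ) ≤ (∏ i, (L i : ℝ)) ^ 2 * T ^ (-δ) →
      ∑ n ∈ Ioc K (2 * K), WF Δ L n ≤ C * (∏ i, (L i : ℝ)) * (K : ℝ) ^ (1 / 2 : ℝ) * T ^ (-η)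

/-- FMZ: the first moment of `|ζ(1/2 + it)|` over a proper progression -/
def S_FMZ : Prop := ∀ (k : ℕ) (δ κ : ℝ), 0 < δ → 0 < κ → ∃ C : ℝ, 1 ≤ C ∧
  ∀ (T D : ℝ) (F : Finset ℝ), C ≤ T → ProperGAP k F → (∀ t ∈ F, T ≤ t ∧ t ≤ 2 * T) →
    (∀ t ∈ F, ∀ u ∈ F, t ≠ u → 1 ≤ |t - u| ∧ |t - u| ≤ D) →
    D ^ (2 / 3 : ℝ) * T ^ δ ≤ F.card → T ^ (1 / 2 + δ) ≤ F.card →
    (F.card : ℝ) * T ^ (-κ) ≤ ∑ t ∈ F, ‖riemannZeta (1 / 2 + t * Complex.I)‖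

end Pool.Agent.Y766.R9
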