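import Pool.Agent.Y766.R9.Stm

/-!
Statements for project R9, the reduction to separated progressions.
-/

set_option autoImplicit false

namespace Pool.Agent.Y766.R9

open Finset

open Classical in
/-- NVG: many members of a one-separated proper progression are not ordinates -/
def S_NVG : Prop := ∀ (k : ℕ) (δ ε : ℝ), 0 < δ → 0 < ε → ∃ C : ℝ, 1 ≤ C ∧
  ∀ (T : ℝ) (F : Finset ℝ), C ≤ T → ProperGAP k F → (∀ t ∈ F, T ≤ t ∧ t ≤ 2 * T) →
    (∀ t ∈ F, ∀ u ∈ F, t ≠ u → 1 ≤ |t - u|) → T ^ (2 / 3 + δ) ≤ F.card →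
    T ^ (-ε) * F.card ≤
      ((F.filter (fun t : ℝ => riemannZeta (1 / 2 + t * Complex.I) ≠ 0)).card : ℝ)

open Classical in
/-- FIN: many members of an arbitrary proper progression are not ordinates -/
def S_FIN : Prop := ∀ (k : ℕ) (δ ε : ℝ), 0 < δ → 0 < ε → ∃ T₀ : ℝ, 1 ≤ T₀ ∧
  ∀ (T : ℝ) (F : Finset ℝ), T₀ ≤ T → ProperGAP k F → (∀ t ∈ F, 0 ≤ t ∧ t ≤ T) →
    T ^ (2 / 3 + δ) ≤ F.card →
    T ^ (-ε) * F.card ≤
      ((F.filter (fun t : ℝ => riemannZeta (1 / 2 + t * Complex.I) ≠ 0)).card : ℝ)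

end Pool.Agent.Y766.R9
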